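import Pool.Agent.W551.FolQ.Gr

/-!
# Arithmetic for the quantitative bound
-/

set_option autoImplicit false

namespace Pool.Agent.W551.FolQ

open Finset Pool.Agent.W380.Fol

theorem arith (K N0 : ℕ) (hK1 : 1 ≤ K) (c0 : ℝ) (hc0 : 0 < c0) :
    ∃ c : ℝ, 0 < c ∧ ∃ C : ℝ, 0 < C ∧ ∀ (n : ℕ) (f : ℝ), 1 ≤ f →
      (∀ N ≥ N0, K * N ≤ n → c0 * (N * Real.log N) ≤ Real.log f) →
      Real.exp (c * (n * Real.log n)) ≤ C * f := by
  have hKr : (1 : ℝ) ≤ K := by exact_mod_cast hK1
  set n1 : ℕ := 4 * K ^ 2 + K * (N0 + 1) with hn1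
  have hc : 0 < c0 / (4 * K) := by positivity
  have hC1 : 1 ≤ Real.exp (c0 / (4 * K) * (n1 * Real.log n1)) := by
    apply Real.one_le_exp
    have := Real.log_natCast_nonneg n1
    positivity
  refine ⟨c0 / (4 * K), hc, Real.exp (c0 / (4 * K) * (n1 * Real.log n1)), Real.exp_pos _,
    fun n f hf hb => ?_⟩
  by_cases hn : n < n1
  · have h1 : Real.exp (c0 / (4 * K) * (n * Real.log n)) ≤
        Real.exp (c0 / (4 * K) * (n1 * Real.log n1)) := by
      apply Real.exp_le_exp.2
      rcases Nat.eq_zero_or_pos n with h0 | h0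
      · rw [h0]
        simp only [Nat.cast_zero, zero_mul, mul_zero]
        have := Real.log_natCast_nonneg n1
        positivity
      · have h2 : Real.log n ≤ Real.log n1 :=
          Real.log_le_log (by exact_mod_cast h0) (by exact_mod_cast hn.le)
        have h3 : (n : ℝ) ≤ n1 := by exact_mod_cast hn.le
        have h4 := Real.log_natCast_nonneg n
        gcongr
    nlinarith [Real.exp_pos (c0 / (4 * K) * (n1 * Real.log n1))]
  · push Not at hn
    set N : ℕ := n / K with hN
    have hNK : K * N ≤ n := Nat.mul_div_le _ _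
    have hNN : N0 + 1 ≤ N := by
      rw [hN, Nat.le_div_iff_mul_le hK1, mul_comm]
      exact le_trans (by omega) hn
    have h1 := hb N (by omega) hNK
    have hn4 : (4 : ℝ) * K ^ 2 ≤ n := by
      have : 4 * K ^ 2 ≤ n := le_trans (by omega) hn
      exact_mod_cast this
    have hnpos : (0 : ℝ) < n := by
      have : (0 : ℝ) < 4 * K ^ 2 := by positivity
      linarith
    have hN2 : (n : ℝ) / (2 * K) ≤ N := by
      have h2 : n < K * (N + 1) := Nat.lt_mul_div_succ _ hK1
      have h3 : (n : ℝ) ≤ K * (N + 1) := by exact_mod_cast h2.le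
      have h4 : (2 : ℝ) * K ≤ n := by nlinarith
      rw [div_le_iff₀ (by positivity)]
      nlinarith
    have hlog : Real.log n / 2 ≤ Real.log N := by
      have h2 : Real.log n ≤ Real.log (((n : ℝ) / (2 * K)) ^ 2) := by
        apply Real.log_le_log hnpos
        rw [div_pow, le_div_iff₀ (by positivity)]
        nlinarith
      rw [Real.log_pow] at h2
      have h3 : Real.log ((n : ℝ) / (2 * K)) ≤ Real.log N :=
        Real.log_le_log (by positivity) hN2
      push_cast at h2
      linarith
    have hlog0 : 0 ≤ Real.log n := Real.log_natCast_nonneg n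
    have h5 : c0 / (4 * K) * (n * Real.log n) ≤ c0 * (N * Real.log N) := by
      calc c0 / (4 * K) * (n * Real.log n) = c0 * (n / (2 * K) * (Real.log n / 2)) := by
            field_simp
            ring
        _ ≤ c0 * (N * Real.log N) := by gcongr
    have h6 : Real.exp (c0 / (4 * K) * (n * Real.log n)) ≤ f := by
      rw [← Real.le_log_iff_exp_le (by linarith)]
      exact h5.trans h1
    have h8 : f ≤ Real.exp (c0 / (4 * K) * (n1 * Real.log n1)) * f := by
      nlinarith
    linarith

open Classical in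
theorem bd_le (w : ℕ → Fin 3) (F : Finset P) :
    (F.filter fun z => ∃ s ∈ gens w, z * s ∉ F).card ≤
      ∑ j : Option (Fin 3), (F.filter fun z => z * gg w j ∉ F).card := by
  have hsub : (F.filter fun z => ∃ s ∈ gens w, z * s ∉ F) ⊆
      (Finset.univ : Finset (Option (Fin 3))).biUnion fun j =>
        F.filter fun z => z * gg w j ∉ F := by
    intro z hz
    rw [Finset.mem_filter] at hz
    obtain ⟨hz1, s, hs, hzs⟩ := hz
    rw [Finset.mem_biUnion]
    rcases hs with rfl | ⟨y, rfl⟩
    · exact ⟨none, Finset.mem_univ _, Finset.mem_filter.2 ⟨hz1, hzs⟩⟩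
    · exact ⟨some y, Finset.mem_univ _, Finset.mem_filter.2 ⟨hz1, hzs⟩⟩
  exact (Finset.card_le_card hsub).trans Finset.card_biUnion_le

open Classical in
theorem bd_four (w : ℕ → Fin 3) (F : Finset P) (n : ℕ)
    (h : ∀ s ∈ gens w, n * (F.filter fun z => z * s ∉ F).card ≤ F.card) (N : ℕ)
    (hN : 4 * N ≤ n) :
    N * (F.filter fun z => ∃ s ∈ gens w, z * s ∉ F).card ≤ F.card := by
  have h1 : n * (F.filter fun z => ∃ s ∈ gens w, z * s ∉ F).card ≤ 4 * F.card := by
    refine (Nat.mul_le_mul_left _ (bd_le w F)).trans ?_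
    rw [Finset.mul_sum]
    have h2 : ∀ j ∈ (Finset.univ : Finset (Option (Fin 3))),
        n * (F.filter fun z => z * gg w j ∉ F).card ≤ F.card := by
      intro j _
      refine h _ ?_
      cases j with
      | none => exact Or.inl rfl
      | some y => exact Or.inr ⟨y, rfl⟩
    refine (Finset.sum_le_sum h2).trans ?_
    rw [Finset.sum_const, Finset.card_univ, Fintype.card_option, Fintype.card_fin, smul_eq_mul]
  have h3 : 4 * N * (F.filter fun z => ∃ s ∈ gens w, z * s ∉ F).card ≤
      n * (F.filter fun z => ∃ s ∈ gens w, z * s ∉ F).card := Nat.mul_le_mul_right _ hN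
  rw [mul_assoc] at h3
  omega

end Pool.Agent.W551.FolQ
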