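import Mathlib

/-!
# Folner functions of subquotients: cosets and level sets
-/

set_option autoImplicit false

namespace Pool.Agent.W551.FolQ

open Finset

open Classical in
theorem leave_mul {G : Type*} [Group G] (F : Finset G) (x y : G) :
    (F.filter fun z => z * (x * y) ∉ F).card ≤
      (F.filter fun z => z * x ∉ F).card + (F.filter fun z => z * y ∉ F).card := by
  have h1 : (F.filter fun z => z * (x * y) ∉ F) ⊆
      (F.filter fun z => z * x ∉ F) ∪
        (F.filter fun z => z * x ∈ F ∧ z * x * y ∉ F) := by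
    intro z hz
    rw [Finset.mem_filter] at hz
    rw [Finset.mem_union, Finset.mem_filter, Finset.mem_filter]
    by_cases h : z * x ∈ F
    · exact Or.inr ⟨hz.1, h, by rw [mul_assoc]; exact hz.2⟩
    · exact Or.inl ⟨hz.1, h⟩
  have h2 : (F.filter fun z => z * x ∈ F ∧ z * x * y ∉ F).card ≤
      (F.filter fun z => z * y ∉ F).card := by
    refine Finset.card_le_card_of_injOn (fun z => z * x) ?_ ?_
    · intro z hz
      rw [Finset.mem_coe, Finset.mem_filter] at hz ⊢
      exact ⟨hz.2.1, hz.2.2⟩
    · intro z _ z' _ h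
      exact mul_right_cancel h
  exact (Finset.card_le_card h1).trans ((Finset.card_union_le _ _).trans (by omega))

open Classical in
theorem leave_inv {G : Type*} [Group G] (F : Finset G) (x : G) :
    (F.filter fun z => z * x⁻¹ ∉ F).card ≤ (F.filter fun z => z * x ∉ F).card := by
  have h1 := Finset.card_filter_add_card_filter_not (s := F) (fun z => z * x ∈ F)
  have h2 := Finset.card_filter_add_card_filter_not (s := F) (fun z => z * x⁻¹ ∈ F)
  have h3 : (F.filter fun z => z * x ∈ F).card ≤ (F.filter fun z => z * x⁻¹ ∈ F).card := by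
    refine Finset.card_le_card_of_injOn (fun z => z * x) ?_ ?_
    · intro z hz
      rw [Finset.mem_coe, Finset.mem_filter] at hz ⊢
      refine ⟨hz.2, ?_⟩
      rw [mul_inv_cancel_right]
      exact hz.1
    · intro z _ z' _ h
      exact mul_right_cancel h
  omega

open Classical in
/-- almost invariance under one element of a finitely generated group -/
theorem leave_const {G : Type*} [Group G] (S : Finset G)
    (hS : Subgroup.closure (S : Set G) = ⊤) (t : G) :
    ∃ K : ℕ, ∀ F : Finset G, (F.filter fun z => z * t ∉ F).card ≤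
      K * (F.filter fun z => ∃ s ∈ S, z * s ∉ F).card := by
  have ht : t ∈ Subgroup.closure (S : Set G) := by rw [hS]; exact Subgroup.mem_top t
  induction ht using Subgroup.closure_induction with
  | mem x hx =>
    refine ⟨1, fun F => ?_⟩
    rw [one_mul]
    refine Finset.card_le_card fun z hz => ?_
    rw [Finset.mem_filter] at hz ⊢
    exact ⟨hz.1, x, hx, hz.2⟩
  | one => exact ⟨0, fun F => by simp⟩
  | mul x y _ _ hx hy =>
    obtain ⟨K, hK⟩ := hx
    obtain ⟨K', hK'⟩ := hy
    refine ⟨K + K', fun F => ?_⟩
    rw [add_mul]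
    exact (leave_mul F x y).trans (add_le_add (hK F) (hK' F))
  | inv x _ hx =>
    obtain ⟨K, hK⟩ := hx
    exact ⟨K, fun F => (leave_inv F x).trans (hK F)⟩

theorem sum_lt_eq (n m : ℕ) (h : m ≤ n) :
    (∑ s ∈ range n, if s < m then 1 else 0) = m := by
  rw [← Finset.card_filter]
  have : (range n).filter (fun s => s < m) = range m := by
    ext s
    simp only [mem_filter, mem_range]
    omega
  rw [this, card_range]

theorem sum_lt_sub (n m k : ℕ) (h : m ≤ n) :
    (∑ s ∈ range n, if s < m ∧ ¬ s < k then 1 else 0) = m - k := by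
  rw [← Finset.card_filter]
  have : (range n).filter (fun s => s < m ∧ ¬ s < k) = Finset.Ico k m := by
    ext s
    simp only [mem_filter, mem_range, Finset.mem_Ico]
    omega
  rw [this, Nat.card_Ico]

open Classical in
/-- level sets -/
theorem level {X ι Q J : Type*} [Group Q] [Fintype J] (F : Finset X) (hF : F.Nonempty)
    (φ : X → ι × Q) (T : J → X → X) (t : J → Q) (hT : ∀ j, Function.Injective (T j))
    (hφ : ∀ j x, φ (T j x) = ((φ x).1, (φ x).2 * t j)) (N : ℕ)
    (hN : N * ∑ j, (F.filter fun x => T j x ∉ F).card ≤ F.card) :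
    ∃ L : Finset Q, L.Nonempty ∧ L.card ≤ F.card ∧
      N * ∑ j, (L.filter fun q => q * t j ∉ L).card ≤ L.card := by
  by_contra hcon
  push Not at hcon
  set f : ι → Q → ℕ := fun c q => (F.filter fun x => φ x = (c, q)).card with hf
  set I : Finset ι := F.image fun x => (φ x).1 with hI
  set J' : Finset Q := F.image fun x => (φ x).2 with hJ'
  have hfF : ∀ c q, f c q ≤ F.card := fun c q => Finset.card_filter_le _ _
  have hfJ : ∀ c q, 0 < f c q → q ∈ J' := by
    intro c q h
    obtain ⟨x, hx⟩ := Finset.card_pos.1 h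
    rw [Finset.mem_filter] at hx
    rw [hJ', Finset.mem_image]
    exact ⟨x, hx.1, by rw [hx.2]⟩
  set Lv : ι → ℕ → Finset Q := fun c s => J'.filter fun q => s < f c q with hLv
  have hmem : ∀ c s q, q ∈ Lv c s ↔ s < f c q := by
    intro c s q
    rw [hLv, Finset.mem_filter]
    exact ⟨fun h => h.2, fun h => ⟨hfJ c q (by omega), h⟩⟩
  -- total size
  have hsum1 : ∑ c ∈ I, ∑ s ∈ range F.card, (Lv c s).card = F.card := by
    have h1 : ∀ c, ∑ s ∈ range F.card, (Lv c s).card = ∑ q ∈ J', f c q := by
      intro c
      have : ∀ s ∈ range F.card, (Lv c s).card = ∑ q ∈ J', if s < f c q then 1 else 0 := by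
        intro s _
        rw [hLv, Finset.card_filter]
      rw [Finset.sum_congr rfl this, Finset.sum_comm]
      exact Finset.sum_congr rfl fun q _ => sum_lt_eq _ _ (hfF c q)
    rw [Finset.sum_congr rfl fun c _ => h1 c, ← Finset.sum_product']
    have h2 : ∀ x ∈ F, φ x ∈ I ×ˢ J' := by
      intro x hx
      rw [Finset.mem_product]
      exact ⟨Finset.mem_image_of_mem _ hx, Finset.mem_image_of_mem _ hx⟩
    exact (Finset.card_eq_sum_card_fiberwise h2).symm
  -- boundaries
  have hsum2 : ∀ j, ∑ c ∈ I, ∑ s ∈ range F.card,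
      ((Lv c s).filter fun q => q * t j ∉ Lv c s).card ≤ (F.filter fun x => T j x ∉ F).card := by
    intro j
    have h1 : ∀ c, ∑ s ∈ range F.card, ((Lv c s).filter fun q => q * t j ∉ Lv c s).card =
        ∑ q ∈ J', (f c q - f c (q * t j)) := by
      intro c
      have : ∀ s ∈ range F.card, ((Lv c s).filter fun q => q * t j ∉ Lv c s).card =
          ∑ q ∈ J', if s < f c q ∧ ¬ s < f c (q * t j) then 1 else 0 := by
        intro s _
        rw [← Finset.card_filter]
        congr 1
        ext q
        constructor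
        · intro hq
          have h2 := Finset.mem_filter.1 hq
          have h3 := (hmem c s q).1 h2.1
          have h4 : ¬ s < f c (q * t j) := fun h => h2.2 ((hmem c s (q * t j)).2 h)
          exact Finset.mem_filter.2 ⟨hfJ c q (by omega), h3, h4⟩
        · intro hq
          have h2 := Finset.mem_filter.1 hq
          exact Finset.mem_filter.2 ⟨(hmem c s q).2 h2.2.1,
            fun h => h2.2.2 ((hmem c s (q * t j)).1 h)⟩
      rw [Finset.sum_congr rfl this, Finset.sum_comm]
      exact Finset.sum_congr rfl fun q _ => sum_lt_sub _ _ _ (hfF c q)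
    have h3 : ∀ c q, f c q - f c (q * t j) ≤
        ((F.filter fun x => T j x ∉ F).filter fun x => φ x = (c, q)).card := by
      intro c q
      have h4 := Finset.card_filter_add_card_filter_not
        (s := F.filter fun x => φ x = (c, q)) (fun x => T j x ∈ F)
      have h5 : ((F.filter fun x => φ x = (c, q)).filter fun x => T j x ∈ F).card ≤
          f c (q * t j) := by
        refine Finset.card_le_card_of_injOn (T j) ?_ (fun x _ y _ h => hT j h)
        intro x hx
        rw [Finset.mem_coe, Finset.mem_filter, Finset.mem_filter] at hx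
        rw [Finset.mem_coe, Finset.mem_filter]
        refine ⟨hx.2, ?_⟩
        rw [hφ, hx.1.2]
      have h6 : ((F.filter fun x => φ x = (c, q)).filter fun x => ¬ T j x ∈ F) =
          ((F.filter fun x => T j x ∉ F).filter fun x => φ x = (c, q)) := by
        ext x
        simp only [Finset.mem_filter]
        tauto
      rw [h6] at h4
      have h7 : f c q = (F.filter fun x => φ x = (c, q)).card := rfl
      omega
    rw [Finset.sum_congr rfl fun c _ => h1 c]
    calc ∑ c ∈ I, ∑ q ∈ J', (f c q - f c (q * t j))
        ≤ ∑ c ∈ I, ∑ q ∈ J',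
          ((F.filter fun x => T j x ∉ F).filter fun x => φ x = (c, q)).card :=
          Finset.sum_le_sum fun c _ => Finset.sum_le_sum fun q _ => h3 c q
      _ = (F.filter fun x => T j x ∉ F).card := by
          rw [← Finset.sum_product']
          have h8 : ∀ x ∈ F.filter (fun x => T j x ∉ F), φ x ∈ I ×ˢ J' := by
            intro x hx
            have hx' := (Finset.mem_filter.1 hx).1
            rw [Finset.mem_product]
            exact ⟨Finset.mem_image_of_mem _ hx', Finset.mem_image_of_mem _ hx'⟩
          exact (Finset.card_eq_sum_card_fiberwise h8).symm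
  -- contradiction
  have hle : ∀ c s, (Lv c s).card ≤ N * ∑ j, ((Lv c s).filter fun q => q * t j ∉ Lv c s).card ∧
      ((Lv c s).Nonempty → (Lv c s).card <
        N * ∑ j, ((Lv c s).filter fun q => q * t j ∉ Lv c s).card) := by
    intro c s
    have hcard : (Lv c s).card ≤ F.card := by
      have h1 : (Lv c s).card ≤ J'.card := Finset.card_le_card (Finset.filter_subset _ _)
      exact h1.trans Finset.card_image_le
    have hlt : (Lv c s).Nonempty → (Lv c s).card <
        N * ∑ j, ((Lv c s).filter fun q => q * t j ∉ Lv c s).card :=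
      fun h => hcon _ h hcard
    refine ⟨?_, hlt⟩
    by_cases h : (Lv c s).Nonempty
    · exact (hlt h).le
    · rw [Finset.not_nonempty_iff_eq_empty] at h
      rw [h]
      simp
  obtain ⟨x0, hx0⟩ := hF
  have hFpos : 0 < F.card := Finset.card_pos.2 ⟨x0, hx0⟩
  have hstrict : ∑ c ∈ I, ∑ s ∈ range F.card, (Lv c s).card <
      ∑ c ∈ I, ∑ s ∈ range F.card,
        N * ∑ j, ((Lv c s).filter fun q => q * t j ∉ Lv c s).card := by
    refine Finset.sum_lt_sum (fun c _ => Finset.sum_le_sum fun s _ => (hle c s).1)
      ⟨(φ x0).1, Finset.mem_image_of_mem _ hx0, ?_⟩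
    refine Finset.sum_lt_sum (fun s _ => (hle _ s).1) ⟨0, Finset.mem_range.2 hFpos, ?_⟩
    apply (hle _ 0).2
    refine ⟨(φ x0).2, ?_⟩
    rw [hmem]
    exact Finset.card_pos.2 ⟨x0, Finset.mem_filter.2 ⟨hx0, rfl⟩⟩
  rw [hsum1] at hstrict
  have h9 : ∑ c ∈ I, ∑ s ∈ range F.card,
        N * ∑ j, ((Lv c s).filter fun q => q * t j ∉ Lv c s).card =
      N * ∑ j, ∑ c ∈ I, ∑ s ∈ range F.card,
        ((Lv c s).filter fun q => q * t j ∉ Lv c s).card := by
    rw [Finset.sum_comm (s := (Finset.univ : Finset J)), Finset.mul_sum]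
    refine Finset.sum_congr rfl fun c _ => ?_
    rw [Finset.sum_comm (s := (Finset.univ : Finset J)), Finset.mul_sum]
  rw [h9] at hstrict
  have h10 : N * ∑ j, ∑ c ∈ I, ∑ s ∈ range F.card,
        ((Lv c s).filter fun q => q * t j ∉ Lv c s).card ≤
      N * ∑ j, (F.filter fun x => T j x ∉ F).card :=
    Nat.mul_le_mul_left _ (Finset.sum_le_sum fun j _ => hsum2 j)
  omega

end Pool.Agent.W551.FolQ
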