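import Pool.Agent.W380.Fol.Main
import Pool.Agent.W551.FolQ.Co

/-!
# Transfer of Folner sets to subquotients, and the quantitative bound for the groups `G_w`
-/

set_option autoImplicit false

namespace Pool.Agent.W551.FolQ

open Finset

open Classical in
/-- Folner sets of a group give Folner sets of the quotients of its subgroups -/
theorem transfer {G Q : Type*} [Group G] [Group Q] (S : Finset G)
    (hS : Subgroup.closure (S : Set G) = ⊤) (H : Subgroup G) (π : H →* Q)
    (hπ : Function.Surjective π) {J : Type*} [Fintype J] (t : J → Q) :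
    ∃ K : ℕ, 1 ≤ K ∧ ∀ F : Finset G, F.Nonempty → ∀ N : ℕ,
      (K * N) * (F.filter fun z => ∃ s ∈ S, z * s ∉ F).card ≤ F.card →
      ∃ L : Finset Q, L.Nonempty ∧ L.card ≤ F.card ∧
        N * ∑ j, (L.filter fun q => q * t j ∉ L).card ≤ L.card := by
  choose h hh using fun j => hπ (t j)
  choose K hK using fun j => leave_const S hS ((h j : H) : G)
  refine ⟨1 + ∑ j, K j, by omega, fun F hF N hN => ?_⟩
  have hmem : ∀ g : G, ((g : G ⧸ H).out)⁻¹ * g ∈ H := by
    intro g
    rw [← QuotientGroup.eq, QuotientGroup.out_eq']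
  have hmk : ∀ (g : G) (x : H), ((g * (x : G) : G) : G ⧸ H) = (g : G ⧸ H) := by
    intro g x
    rw [QuotientGroup.eq, mul_inv_rev, inv_mul_cancel_right]
    exact H.inv_mem x.2
  refine level F hF (fun g => ((g : G ⧸ H), π ⟨((g : G ⧸ H).out)⁻¹ * g, hmem g⟩))
    (fun j x => x * ((h j : H) : G)) t (fun j x y hxy => mul_right_cancel hxy) ?_ N ?_
  · intro j x
    have h1 := hmk x (h j)
    refine Prod.ext h1 ?_
    change π ⟨((x * ((h j : H) : G) : G) : G ⧸ H).out⁻¹ * (x * ((h j : H) : G)), _⟩ =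
      π ⟨((x : G ⧸ H).out)⁻¹ * x, hmem x⟩ * t j
    rw [← hh j, ← map_mul]
    congr 1
    apply Subtype.ext
    change ((x * ((h j : H) : G) : G) : G ⧸ H).out⁻¹ * (x * ((h j : H) : G)) =
      ((x : G ⧸ H).out)⁻¹ * x * ((h j : H) : G)
    rw [h1, mul_assoc]
  · refine le_trans ?_ hN
    calc N * ∑ j, (F.filter fun x => x * ((h j : H) : G) ∉ F).card
        ≤ N * ∑ j, K j * (F.filter fun z => ∃ s ∈ S, z * s ∉ F).card :=
          Nat.mul_le_mul_left _ (Finset.sum_le_sum fun j _ => hK j F)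
      _ = (∑ j, K j) * N * (F.filter fun z => ∃ s ∈ S, z * s ∉ F).card := by
          rw [← Finset.sum_mul]
          ring
      _ ≤ (1 + ∑ j, K j) * N * (F.filter fun z => ∃ s ∈ S, z * s ∉ F).card :=
          Nat.mul_le_mul_right _ (Nat.mul_le_mul_right _ (by omega))

open Pool.Agent.W380.Fol

/-- the four generators -/
def gg (w : ℕ → Fin 3) : Option (Fin 3) → P
  | none => a
  | some y => B w y

theorem gg_mem (w : ℕ → Fin 3) (j : Option (Fin 3)) : gg w j ∈ Subgroup.closure (gens w) := by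
  cases j with
  | none => exact Subgroup.subset_closure (Or.inl rfl)
  | some y => exact Subgroup.subset_closure (Or.inr ⟨y, rfl⟩)

open Classical in
theorem transfer_P (w : ℕ → Fin 3) {G : Type*} [Group G] (S : Finset G)
    (hS : Subgroup.closure (S : Set G) = ⊤) (H : Subgroup G)
    (π : H →* Subgroup.closure (gens w)) (hπ : Function.Surjective π) :
    ∃ K : ℕ, 1 ≤ K ∧ ∀ F : Finset G, F.Nonempty → ∀ N : ℕ,
      (K * N) * (F.filter fun z => ∃ s ∈ S, z * s ∉ F).card ≤ F.card →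
      ∃ L : Finset P, L.Nonempty ∧ L.card ≤ F.card ∧
        N * (L.filter fun z => ∃ s ∈ gens w, z * s ∉ L).card ≤ L.card := by
  set gq : Option (Fin 3) → Subgroup.closure (gens w) := fun j => ⟨gg w j, gg_mem w j⟩ with hgq
  obtain ⟨K, hK1, hK⟩ := transfer S hS H π hπ (J := Option (Fin 3)) gq
  refine ⟨K, hK1, fun F hF N hN => ?_⟩
  obtain ⟨L, hL, hLF, hb⟩ := hK F hF N hN
  have hinj : Function.Injective (Subtype.val : Subgroup.closure (gens w) → P) :=
    Subtype.val_injective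
  refine ⟨L.image Subtype.val, hL.image _, ?_, ?_⟩
  · rw [Finset.card_image_of_injective _ hinj]
    exact hLF
  rw [Finset.card_image_of_injective L hinj]
  refine le_trans (Nat.mul_le_mul_left _ ?_) hb
  have hsub : ((L.image Subtype.val).filter fun z => ∃ s ∈ gens w, z * s ∉ L.image Subtype.val) ⊆
      (Finset.univ : Finset (Option (Fin 3))).biUnion fun j =>
        (L.filter fun q => q * gq j ∉ L).image Subtype.val := by
    intro z hz
    rw [Finset.mem_filter] at hz
    obtain ⟨hz1, s, hs, hzs⟩ := hz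
    obtain ⟨x, hx, rfl⟩ := Finset.mem_image.1 hz1
    rw [Finset.mem_biUnion]
    rcases hs with rfl | ⟨y, rfl⟩
    · refine ⟨none, Finset.mem_univ _, Finset.mem_image.2 ⟨x, ?_, rfl⟩⟩
      rw [Finset.mem_filter]
      exact ⟨hx, fun hc => hzs (Finset.mem_image.2 ⟨_, hc, rfl⟩)⟩
    · refine ⟨some y, Finset.mem_univ _, Finset.mem_image.2 ⟨x, ?_, rfl⟩⟩
      rw [Finset.mem_filter]
      exact ⟨hx, fun hc => hzs (Finset.mem_image.2 ⟨_, hc, rfl⟩)⟩
  refine (Finset.card_le_card hsub).trans (Finset.card_biUnion_le.trans ?_)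
  refine Finset.sum_le_sum fun j _ => ?_
  rw [Finset.card_image_of_injective _ hinj]
  convert le_refl _

open Classical in
/-- the Folner function of a group with a subquotient `G_w` is not at most exponential -/
theorem superexp (w : ℕ → Fin 3) (hw : ¬ ∃ (i : Fin 3) (N : ℕ), ∀ n ≥ N, w n = i)
    {G : Type*} [Group G] (S : Finset G)
    (hS : Subgroup.closure (S : Set G) = ⊤) (H : Subgroup G)
    (π : H →* Subgroup.closure (gens w)) (hπ : Function.Surjective π) (C : ℝ) :
    ∃ n : ℕ, ∀ F : Finset G, F.Nonempty →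
      n * (F.filter fun z => ∃ s ∈ S, z * s ∉ F).card ≤ F.card →
      C * Real.exp (C * n) < F.card := by
  obtain ⟨K, hK1, hK⟩ := transfer_P w S hS H π hπ
  have hKr : (1 : ℝ) ≤ K := by exact_mod_cast hK1
  obtain ⟨n, hn, h⟩ := main_P w hw (|C| * K)
  refine ⟨K * n, fun F hF hb => ?_⟩
  obtain ⟨L, hL, hLF, hLb⟩ := hK F hF n hb
  have h1 := h L hL hLb
  have h2 : (L.card : ℝ) ≤ F.card := by exact_mod_cast hLF
  refine lt_of_le_of_lt ?_ (h1.trans_le h2)
  push_cast
  have hC : C ≤ |C| := le_abs_self C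
  have hn0 : (0 : ℝ) ≤ n := Nat.cast_nonneg n
  have h3 : C ≤ |C| * K := by nlinarith [abs_nonneg C]
  have h4 : Real.exp (C * (K * n)) ≤ Real.exp (|C| * K * n) := by
    apply Real.exp_le_exp.2
    have : C * (K * n) ≤ |C| * (K * n) := by gcongr
    linarith
  have h5 : 0 ≤ |C| * K := by positivity
  calc C * Real.exp (C * (K * n)) ≤ |C| * K * Real.exp (C * (K * n)) := by
        gcongr
    _ ≤ _ := by gcongr

/-! ### The quantitative bound -/

/-- there is a change of letter in every window of length `p` -/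
def Runs (w : ℕ → Fin 3) (p : ℕ) : Prop := ∀ m : ℕ, ∃ k, m ≤ k ∧ k < m + p ∧ w k ≠ w (k + 1)

theorem cE_pair {w : ℕ → Fin 3} {p : ℕ} (h : Runs w p) {x y : Fin 3} (hxy : x ≠ y) (j : ℕ) :
    j ≤ cE w x ((p + 1) * j) + cE w y ((p + 1) * j) := by
  induction j with
  | zero => exact Nat.zero_le _
  | succ j ih =>
    obtain ⟨k, hk1, hk2, hk3⟩ := h ((p + 1) * j)
    have hdec : ∀ x y u v : Fin 3, x ≠ y → u ≠ v → (u = x ∨ v = x) ∨ (u = y ∨ v = y) := by decide
    have hx := cE_mono w x (k := (p + 1) * j) (l := (p + 1) * (j + 1)) (by rw [mul_add]; omega)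
    have hy := cE_mono w y (k := (p + 1) * j) (l := (p + 1) * (j + 1)) (by rw [mul_add]; omega)
    have key : ∀ e : Fin 3, (w k = e ∨ w (k + 1) = e) →
        cE w e ((p + 1) * j) + 1 ≤ cE w e ((p + 1) * (j + 1)) := by
      intro e he
      rcases he with he | he
      · have h1 := cE_succ w e k he
        have h2 := cE_mono w e (k := (p + 1) * j) (l := k) hk1
        have h3 := cE_mono w e (k := k + 1) (l := (p + 1) * (j + 1)) (by rw [mul_add]; omega)
        omega
      · have h1 := cE_succ w e (k + 1) he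
        have h2 := cE_mono w e (k := (p + 1) * j) (l := k + 1) (by omega)
        have h3 := cE_mono w e (k := k + 1 + 1) (l := (p + 1) * (j + 1)) (by rw [mul_add]; omega)
        omega
    rcases hdec x y (w k) (w (k + 1)) hxy hk3 with h1 | h1
    · have := key x h1
      omega
    · have := key y h1
      omega

/-- in every window there is a change into a frequent letter -/
theorem exists_window {w : ℕ → Fin 3} {p : ℕ} (h : Runs w p) (m : ℕ) :
    ∃ (k : ℕ) (e : Fin 3), m ≤ k ∧ k < m + 2 * p ∧ w k ≠ e ∧ w (k + 1) = e ∧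
      k ≤ 2 * (p + 1) * (cE w e k + 1) := by
  classical
  obtain ⟨k1, hk1, hk1', hc1⟩ := h m
  have hex : ∃ t, w (k1 + 1 + t) ≠ w (k1 + 1 + t + 1) := by
    obtain ⟨k, hk, _, hc⟩ := h (k1 + 1)
    exact ⟨k - (k1 + 1), by rw [Nat.add_sub_cancel' hk]; exact hc⟩
  have hspec := Nat.find_spec hex
  have hmin : ∀ t < Nat.find hex, w (k1 + 1 + t) = w (k1 + 1 + t + 1) := fun t ht => by
    have := Nat.find_min hex ht
    push Not at this
    exact this
  have hlt : Nat.find hex < p := by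
    obtain ⟨k, hk, hk', hc⟩ := h (k1 + 1)
    have := Nat.find_min' hex (m := k - (k1 + 1)) (by rw [Nat.add_sub_cancel' hk]; exact hc)
    omega
  obtain ⟨t, ht⟩ : ∃ t, t = Nat.find hex := ⟨_, rfl⟩
  rw [← ht] at hspec hmin hlt
  have hconst : ∀ s ≤ t, w (k1 + 1 + s) = w (k1 + 1) := by
    intro s
    induction s with
    | zero => exact fun _ => rfl
    | succ s ih =>
      intro hs
      rw [← ih (by omega)]
      exact (hmin s (by omega)).symm
  have hx : w (k1 + 1) ≠ w (k1 + 1 + t + 1) := by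
    rw [← hconst t le_rfl]
    exact hspec
  have hpair := cE_pair h hx (k1 / (p + 1))
  have hk1a : (p + 1) * (k1 / (p + 1)) ≤ k1 := Nat.mul_div_le _ _
  have hk1b : k1 < (p + 1) * (k1 / (p + 1) + 1) := Nat.lt_mul_div_succ _ (by omega)
  have hm1 := cE_mono w (w (k1 + 1)) hk1a
  have hm2 := cE_mono w (w (k1 + 1 + t + 1)) (k := (p + 1) * (k1 / (p + 1))) (l := k1 + 1 + t)
    (by omega)
  obtain ⟨j, hj⟩ : ∃ j, j = k1 / (p + 1) := ⟨_, rfl⟩
  rw [← hj] at hpair hk1b hm1 hm2
  by_cases hcase : j ≤ 2 * cE w (w (k1 + 1)) ((p + 1) * j)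
  · refine ⟨k1, w (k1 + 1), hk1, by omega, hc1, rfl, ?_⟩
    refine hk1b.le.trans ?_
    calc (p + 1) * (j + 1) ≤ (p + 1) * (2 * (cE w (w (k1 + 1)) k1 + 1)) :=
          Nat.mul_le_mul_left _ (by omega)
      _ = _ := by ring
  · refine ⟨k1 + 1 + t, w (k1 + 1 + t + 1), by omega, by omega, hspec, rfl, ?_⟩
    have h1 : j + 2 ≤ 2 * (cE w (w (k1 + 1 + t + 1)) (k1 + 1 + t) + 1) := by omega
    calc k1 + 1 + t ≤ (p + 1) * (j + 2) := by
          have : (p + 1) * (j + 2) = (p + 1) * (j + 1) + (p + 1) := by ring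
          omega
      _ ≤ (p + 1) * (2 * (cE w (w (k1 + 1 + t + 1)) (k1 + 1 + t) + 1)) :=
          Nat.mul_le_mul_left _ h1
      _ = _ := by ring

theorem quant_level {p : ℕ} (hp : 0 < p) :
    ∃ c : ℝ, 0 < c ∧ ∃ k0 : ℕ, ∀ k ≥ k0, ∀ j : ℕ, k ≤ p * (j + 1) →
      ∃ n : ℕ, 1 ≤ n ∧ 64 * n ^ 2 * mm ≤ 2 ^ j ∧ c * k ≤ Real.log ((n + 1 : ℕ) / 2) := by
  generalize hmm : mm = m0
  have hp' : (0 : ℝ) < p := by exact_mod_cast hp
  clear hmm
  -- `q` with `64 mm ≤ 2 ^ (2 q)`
  obtain ⟨q, hq⟩ : ∃ q : ℕ, 64 * m0 ≤ 2 ^ (2 * q) := by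
    refine ⟨64 * m0, (Nat.lt_two_pow_self).le.trans (Nat.pow_le_pow_right (by norm_num) (by omega))⟩
  have hlog2 : (0 : ℝ) < Real.log 2 := Real.log_pos (by norm_num)
  refine ⟨Real.log 2 / (8 * p), by positivity, 8 * p * (q + 3), fun k hk j hj2 => ?_⟩
  have hjq : 8 * (q + 3) ≤ j + 1 := by
    have h1 : p * (8 * (q + 3)) ≤ p * (j + 1) := by
      refine le_trans (le_of_eq ?_) (hk.trans hj2)
      ring
    exact Nat.le_of_mul_le_mul_left h1 hp
  -- `n = 2 ^ (j / 2 - q)`
  refine ⟨2 ^ (j / 2 - q), Nat.one_le_two_pow, ?_, ?_⟩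
  · calc 64 * (2 ^ (j / 2 - q)) ^ 2 * m0 = 64 * m0 * 2 ^ (2 * (j / 2 - q)) := by
          rw [← pow_mul]
          ring
      _ ≤ 2 ^ (2 * q) * 2 ^ (2 * (j / 2 - q)) := Nat.mul_le_mul_right _ hq
      _ = 2 ^ (2 * q + 2 * (j / 2 - q)) := (pow_add _ _ _).symm
      _ ≤ 2 ^ j := Nat.pow_le_pow_right (by norm_num) (by omega)
  · have h1 : (2 : ℝ) ^ (j / 2 - q - 1) ≤ ((2 ^ (j / 2 - q) + 1 : ℕ) : ℝ) / 2 := by
      rw [le_div_iff₀ (by norm_num)]
      push_cast
      have : (2 : ℝ) ^ (j / 2 - q - 1) * 2 = 2 ^ (j / 2 - q) := by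
        rw [← pow_succ]
        congr 1
        omega
      linarith
    have h2 := Real.log_le_log (by positivity) h1
    rw [Real.log_pow] at h2
    refine le_trans ?_ h2
    have h3 : (k : ℝ) ≤ p * (j + 1) := by exact_mod_cast hj2
    have h4 : (j : ℝ) + 1 ≤ 8 * ((j / 2 - q - 1 : ℕ) : ℝ) := by
      have : j + 1 ≤ 8 * (j / 2 - q - 1) := by omega
      exact_mod_cast this
    calc Real.log 2 / (8 * p) * k ≤ Real.log 2 / (8 * p) * (p * (j + 1)) := by gcongr
      _ = (j + 1) / 8 * Real.log 2 := by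
          field_simp
      _ ≤ _ := by
          gcongr
          linarith

open Classical in
/-- the bound for `G_w`, all large `N` -/
theorem quant_P {w : ℕ → Fin 3} {p : ℕ} (hrec : Runs w p) :
    ∃ c : ℝ, 0 < c ∧ ∃ N0 : ℕ, ∀ N ≥ N0, ∀ F : Finset P, F.Nonempty →
      N * (F.filter fun z => ∃ s ∈ gens w, z * s ∉ F).card ≤ F.card →
      c * (N * Real.log N) ≤ Real.log F.card := by
  obtain ⟨C, hC0, hC⟩ := exists_bound
  obtain ⟨c, hc, k0, hk0⟩ := quant_level (p := 2 * (p + 1)) (by omega)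
  obtain ⟨K, hK⟩ : ∃ K : ℕ, K = 128 * mm ^ 2 * C := ⟨_, rfl⟩
  have hK0 : 0 < K := by
    rw [hK]
    have hm : 0 < mm := Fintype.card_pos
    positivity
  have hK' : (1 : ℝ) ≤ K := by exact_mod_cast hK0
  have hlog2 : (0 : ℝ) < Real.log 2 := Real.log_pos (by norm_num)
  -- `a'` with `K 2^(2p+1) ≤ 2^a'`
  obtain ⟨a', ha'⟩ : ∃ a' : ℕ, K * 2 ^ (2 * p + 1) ≤ 2 ^ a' :=
    ⟨K * 2 ^ (2 * p + 1), (Nat.lt_two_pow_self).le⟩
  refine ⟨3 / 4 * (1 / 2 ^ a') * (c / (2 * Real.log 2)), by positivity,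
    2 ^ (2 * a' + k0 + 1), fun N hN F hF hfol => ?_⟩
  -- the level
  have hN1 : 1 ≤ N := le_trans Nat.one_le_two_pow hN
  set b : ℕ := Nat.log 2 N with hb
  have hb1 : 2 ^ b ≤ N := Nat.pow_log_le_self 2 (by omega)
  have hb2 : N < 2 ^ (b + 1) := Nat.lt_pow_succ_log_self (by norm_num) N
  have hb3 : 2 * a' + k0 + 1 ≤ b := by
    have h1 : 2 ^ (2 * a' + k0 + 1) < 2 ^ (b + 1) := lt_of_le_of_lt hN hb2
    have := (Nat.pow_lt_pow_iff_right (by norm_num : 1 < 2)).1 h1
    omega
  obtain ⟨k, e, hk1, hk2, hk3, hk4, hk5⟩ := exists_window hrec (b + 1 - a')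
  have hKk : K * 2 ^ k ≤ N := by
    refine le_trans ?_ hb1
    have h1 : K * 2 ^ (2 * p + 1) * 2 ^ (b - a') ≤ 2 ^ a' * 2 ^ (b - a') :=
      Nat.mul_le_mul_right _ ha'
    rw [← pow_add, Nat.add_sub_cancel' (by omega : a' ≤ b)] at h1
    refine le_trans ?_ h1
    rw [mul_assoc, ← pow_add]
    exact Nat.mul_le_mul_left _ (Nat.pow_le_pow_right (by norm_num) (by omega))
  obtain ⟨n, hn1, hn2, hn3⟩ := hk0 k (by omega) _ hk5
  have hfol' : (128 * mm ^ 2 * C * 2 ^ k) * (F.filter fun z => ∃ s ∈ gens w, z * s ∉ F).card ≤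
      F.card := by
    rw [← hK]
    exact (Nat.mul_le_mul_right _ hKk).trans hfol
  have h1 := main_bound C hC w e k n hk3 hk4 hn2 hn1 F hF hfol'
  refine le_trans ?_ h1
  -- `2 ^ k ≥ N / 2 ^ a'`
  have h2 : (N : ℝ) ≤ 2 ^ a' * 2 ^ k := by
    have h3 : N ≤ 2 ^ a' * 2 ^ k := by
      refine hb2.le.trans ?_
      rw [← pow_add]
      exact Nat.pow_le_pow_right (by norm_num) (by omega)
    exact_mod_cast h3
  -- `k ≥ log N / (2 log 2)`
  have h4 : Real.log N ≤ 2 * k * Real.log 2 := by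
    have h5 : (N : ℝ) ≤ 2 ^ (2 * k) := by
      have h6 : N ≤ 2 ^ (2 * k) := by
        refine hb2.le.trans ?_
        exact Nat.pow_le_pow_right (by norm_num) (by omega)
      exact_mod_cast h6
    have h7 := Real.log_le_log (by exact_mod_cast hN1) h5
    rw [Real.log_pow] at h7
    push_cast at h7
    exact h7
  have hlogN : 0 ≤ Real.log N := Real.log_natCast_nonneg N
  calc 3 / 4 * (1 / 2 ^ a') * (c / (2 * Real.log 2)) * (N * Real.log N)
      ≤ 3 / 4 * (1 / 2 ^ a') * (c / (2 * Real.log 2)) *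
        ((2 ^ a' * 2 ^ k) * (2 * k * Real.log 2)) := by gcongr
    _ = 3 / 4 * 2 ^ k * (c * k) := by
        field_simp
    _ ≤ 3 / 4 * 2 ^ k * Real.log ((n + 1 : ℕ) / 2) := by gcongr

open Classical in
/-- the bound for the groups with a subquotient `G_w` -/
theorem quant_G {w : ℕ → Fin 3} {p : ℕ} (hrec : Runs w p)
    {G : Type*} [Group G] (S : Finset G)
    (hS : Subgroup.closure (S : Set G) = ⊤) (H : Subgroup G)
    (π : H →* Subgroup.closure (gens w)) (hπ : Function.Surjective π) :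
    ∃ c : ℝ, 0 < c ∧ ∃ C : ℝ, 0 < C ∧ ∀ n : ℕ, ∀ F : Finset G, F.Nonempty →
      n * (F.filter fun z => ∃ s ∈ S, z * s ∉ F).card ≤ F.card →
      Real.exp (c * (n * Real.log n)) ≤ C * F.card := by
  obtain ⟨K, hK1, hK⟩ := transfer_P w S hS H π hπ
  obtain ⟨c0, hc0, N0, hN0⟩ := quant_P hrec
  have hKr : (1 : ℝ) ≤ K := by exact_mod_cast hK1
  set n1 : ℕ := 4 * K ^ 2 + K * (N0 + 1) with hn1
  have hc : 0 < c0 / (4 * K) := by positivity
  have hC1 : 1 ≤ Real.exp (c0 / (4 * K) * (n1 * Real.log n1)) := by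
    apply Real.one_le_exp
    have := Real.log_natCast_nonneg n1
    positivity
  refine ⟨c0 / (4 * K), hc, Real.exp (c0 / (4 * K) * (n1 * Real.log n1)), Real.exp_pos _,
    fun n F hF hb => ?_⟩
  have hF1 : (1 : ℝ) ≤ F.card := by exact_mod_cast hF.card_pos
  by_cases hn : n < n1
  · have h1 : Real.exp (c0 / (4 * K) * (n * Real.log n)) ≤
        Real.exp (c0 / (4 * K) * (n1 * Real.log n1)) := by
      apply Real.exp_le_exp.2
      rcases Nat.eq_zero_or_pos n with h0 | h0
      · rw [h0]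
        simp only [Nat.cast_zero, zero_mul, mul_zero]
        have := Real.log_natCast_nonneg n1
        positivity
      · have h2 : Real.log n ≤ Real.log n1 :=
          Real.log_le_log (by exact_mod_cast h0) (by exact_mod_cast hn.le)
        have h3 : (n : ℝ) ≤ n1 := by exact_mod_cast hn.le
        have h4 := Real.log_natCast_nonneg n
        gcongr
    nlinarith [Real.exp_pos (c0 / (4 * K) * (n1 * Real.log n1))]
  · push Not at hn
    set N : ℕ := n / K with hN
    have hNK : K * N ≤ n := Nat.mul_div_le _ _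
    have hNN : N0 + 1 ≤ N := by
      rw [hN, Nat.le_div_iff_mul_le hK1, mul_comm]
      exact le_trans (by omega) hn
    obtain ⟨L, hL, hLF, hLb⟩ := hK F hF N ((Nat.mul_le_mul_right _ hNK).trans hb)
    have h1 := hN0 N (by omega) L hL hLb
    have hn4 : (4 : ℝ) * K ^ 2 ≤ n := by
      have : 4 * K ^ 2 ≤ n := le_trans (by omega) hn
      exact_mod_cast this
    have hnpos : (0 : ℝ) < n := by
      have : (0 : ℝ) < 4 * K ^ 2 := by positivity
      linarith
    have hN2 : (n : ℝ) / (2 * K) ≤ N := by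
      have h2 : n < K * (N + 1) := Nat.lt_mul_div_succ _ hK1
      have h3 : (n : ℝ) ≤ K * (N + 1) := by exact_mod_cast h2.le
      have h4 : (2 : ℝ) * K ≤ n := by nlinarith
      rw [div_le_iff₀ (by positivity)]
      nlinarith
    have hlog : Real.log n / 2 ≤ Real.log N := by
      have h2 : Real.log n ≤ Real.log (((n : ℝ) / (2 * K)) ^ 2) := by
        apply Real.log_le_log hnpos
        rw [div_pow, le_div_iff₀ (by positivity)]
        nlinarith
      rw [Real.log_pow] at h2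
      have h3 : Real.log ((n : ℝ) / (2 * K)) ≤ Real.log N :=
        Real.log_le_log (by positivity) hN2
      push_cast at h2
      linarith
    have hlog0 : 0 ≤ Real.log n := Real.log_natCast_nonneg n
    have h5 : c0 / (4 * K) * (n * Real.log n) ≤ c0 * (N * Real.log N) := by
      calc c0 / (4 * K) * (n * Real.log n) = c0 * (n / (2 * K) * (Real.log n / 2)) := by
            field_simp
            ring
        _ ≤ c0 * (N * Real.log N) := by gcongr
    have hLpos : (0 : ℝ) < L.card := by exact_mod_cast hL.card_pos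
    have h6 : Real.exp (c0 / (4 * K) * (n * Real.log n)) ≤ L.card := by
      rw [← Real.le_log_iff_exp_le hLpos]
      exact h5.trans h1
    have h7 : (L.card : ℝ) ≤ F.card := by exact_mod_cast hLF
    have h8 : (F.card : ℝ) ≤ Real.exp (c0 / (4 * K) * (n1 * Real.log n1)) * F.card := by
      nlinarith
    linarith

end Pool.Agent.W551.FolQ
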